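import Pool.Agent.H574R2.D9.Z
import Pool.Agent.H336R2.HD.Z

/-! The real numbers `1, ζ(3), ζ(5), ζ(7), ζ(9)` span a `ℚ`-vector space of dimension at least three. -/

namespace Pool.Agent.Results.MP_c2395a_nt.DimThreeZeta9

theorem result : 3 ≤ Module.finrank ℚ (Submodule.span ℚ
    (Set.range fun i : Fin 5 =>
      if i.1 = 0 then (1 : ℝ) else ∑' n : ℕ, 1 / ((n : ℝ) + 1) ^ (2 * i.1 + 1))) :=
  Pool.Agent.H574R2.D9.Z_main Pool.Agent.H336R2.HD.Z_main

end Pool.Agent.Results.MP_c2395a_nt.DimThreeZeta9
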