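import Mathlib
import Pool.Agent.H447R2.MZ.Alg

set_option autoImplicit false

namespace Pool.Agent.Results.MP_c2395a_nt.InfinitelyManyOrHalf

/-- The `ℚ`-span of the multiple zeta values of weight `n` (weight `0` gives `ℚ`, weight `1`
gives `0`). -/
noncomputable def Z (n : ℕ) : Submodule ℚ ℝ :=
  Submodule.span ℚ
    {x : ℝ | ∃ t : ℕ, ∃ k : Fin t → ℕ,
      (∀ i, 1 ≤ k i) ∧ (∀ h : 0 < t, 2 ≤ k ⟨0, h⟩) ∧ (∑ i, k i) = n ∧
      x = ∑' m : {m : Fin t → ℕ // StrictAnti m ∧ ∀ i, 1 ≤ m i},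
            ∏ i, (((m.1 i : ℕ) : ℝ) ^ (k i))⁻¹}

/-- Either infinitely many of the numbers `ζ(2k+1)`, `k ≥ 1`, are transcendental, or the dimension
of the span of the multiple zeta values of weight `n` is at least `n / 2 - C` for all `n`. -/
theorem result :
    {k : ℕ | 1 ≤ k ∧ Transcendental ℚ (∑' n : ℕ, (1 : ℝ) / ((n : ℝ) + 1) ^ (2 * k + 1))}.Infinite ∨
    ∃ C : ℕ, ∀ n : ℕ, ((n / 2 : ℕ) : Cardinal) ≤ Module.rank ℚ (Z n) + (C : Cardinal) := by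
  by_cases h :
    {k : ℕ | 1 ≤ k ∧ Transcendental ℚ (∑' n : ℕ, (1 : ℝ) / ((n : ℝ) + 1) ^ (2 * k + 1))}.Infinite
  · exact Or.inl h
  · right
    rw [Set.not_infinite] at h
    obtain ⟨b, hb⟩ := h.bddAbove
    let S : Set ℕ := {w | 2 ≤ w ∧ IsAlgebraic ℚ (∑' n : ℕ, (1 : ℝ) / ((n : ℝ) + 1) ^ w)}
    have hS : ∀ w ∈ S, ∃ y ∈ Pool.Agent.H447R2.MZ.Zs w, y ≠ 0 ∧ IsAlgebraic ℚ y :=
      fun w hw => ⟨_, Pool.Agent.H447R2.MZ.zeta_mem w hw.1,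
        (Pool.Agent.H447R2.MZ.zeta_pos w hw.1).ne', hw.2⟩
    have hk : ∀ k, b + 1 ≤ k → 2 * k + 1 ∈ S := by
      intro k hk
      refine ⟨by omega, ?_⟩
      by_contra hna
      have : k ≤ b := hb ⟨by omega, hna⟩
      omega
    refine ⟨2 * (b + 1) + 1, fun n => ?_⟩
    have h1 := Pool.Agent.H447R2.MZ.growth_half S hS (b + 1) hk n
    have hf : Module.Finite ℚ (Z n) := Pool.Agent.H447R2.MZ.finite_Zs n
    rw [← Module.finrank_eq_rank]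
    exact_mod_cast h1

end Pool.Agent.Results.MP_c2395a_nt.InfinitelyManyOrHalf
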