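import Pool.Agent.H513R2.OZ.AsmE

/-!
# Many irrational odd zeta values at well separated places

For all `κ, B ≥ 1` and all `s ≥ 252840 κ B² (1 + ⌊log₂ B⌋)` there are `B` odd integers in `[3, s]`,
any two of them at distance at least `2κ`, at which the Riemann zeta function is irrational.
-/

namespace Pool.Agent.Results.MP_c2395a_nt.SeparatedOddZeta

theorem result (κ B s : ℕ) (hκ : 1 ≤ κ) (hB : 1 ≤ B)
    (hs : 252840 * κ * B ^ 2 * (1 + Nat.log 2 B) ≤ s) :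
    ∃ S : Finset ℕ, S.card = B ∧
      (∀ i ∈ S, Odd i ∧ 3 ≤ i ∧ i ≤ s ∧ Irrational (∑' t : ℕ, 1 / ((t : ℝ) + 1) ^ i)) ∧
      ∀ i ∈ S, ∀ j ∈ S, i < j → i + 2 * κ ≤ j :=
  Pool.Agent.H513R2.OZ.main κ B s hκ hB hs

end Pool.Agent.Results.MP_c2395a_nt.SeparatedOddZeta
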