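import Pool.Agent.H336R2.Z5M.Main

/-!
# The irrationality exponent of `ζ(5)` is finite

`1/(n+1)^5` summed over `n : ℕ` is `ζ(5)`. There is `c > 0` such that `|ζ(5) - p/q| ≥ c / q^6180` for all
integers `p` and `q ≥ 1`; hence `ζ(5)` is irrational and is not a Liouville number.

The proof evaluates the Hankel determinants of `Pool/Agent/H336R2/Z5/` (linear forms in `1, ζ(5)`) at an
arbitrary rational number `x` in place of `ζ(5)`: the p-adic bounds and the non-vanishing (at prime parameters
`n` not dividing the denominator) hold uniformly in `x`, and the archimedean bound persists as soon as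
`|x - ζ(5)| ≤ exp(-375 n)`.

Credits: this extension helper336; for the determinants and their bounds see
`Pool/Agent/Results/MP_a5ae68_nt/ZetaFive.lean`.
-/

namespace Pool.Agent.Results.MP_c2395a_nt.ZetaFiveMeasure

/-- `ζ(5)` is irrational, it is not a Liouville number, and `|ζ(5) - p/q| ≥ c / q^6180` for a constant `c > 0`
and all integers `p`, `q ≥ 1`. -/
theorem result : Irrational (∑' n : ℕ, 1 / ((n : ℝ) + 1) ^ 5) ∧ ¬ Liouville (∑' n : ℕ, 1 / ((n : ℝ) + 1) ^ 5) ∧
    ∃ c : ℝ, 0 < c ∧ ∀ (p : ℤ) (q : ℕ), 0 < q →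
      c / (q : ℝ) ^ 6180 ≤ |(∑' n : ℕ, 1 / ((n : ℝ) + 1) ^ 5) - (p : ℝ) / q| :=
  Pool.Agent.H336R2.Z5M.main

end Pool.Agent.Results.MP_c2395a_nt.ZetaFiveMeasure
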